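import Mathlib

/-! `liminf S(n) / n ^ ((1 - α) / h) = 0` for `α`-strong `B_h` sets with `h` even. -/

namespace Pool.Agent.Results.MP_1d2509_nt.EvenH

open Finset Filter

/-- `α`-strong `B_h` sets. -/
def Strong (α : ℝ) (h : ℕ) (S : Set ℕ) : Prop :=
  ∀ x y : Fin h → ℕ, (∀ i, x i ∈ S) → (∀ i, y i ∈ S) → univ.sup x ≠ univ.sup y →
    ∀ i, (x i : ℝ) ^ α ≤ |∑ j, (x j : ℝ) - ∑ j, (y j : ℝ)| ∧
      (y i : ℝ) ^ α ≤ |∑ j, (x j : ℝ) - ∑ j, (y j : ℝ)|

open Classical in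
/-- The counting function `S(n) = |S ∩ {1, …, n}|`. -/
noncomputable def cnt (S : Set ℕ) (n : ℕ) : ℕ := ((Icc 1 n).filter (· ∈ S)).card

variable {α : ℝ} {h : ℕ} {S : Set ℕ}

theorem ofms (A : Multiset ℕ) (hA : A.card = h) : ∃ x : Fin h → ℕ, univ.val.map x = A := by
  induction A using Quotient.inductionOn with
  | _ l =>
    obtain rfl : l.length = h := hA
    exact ⟨l.get, by rw [Fin.univ_val_map, List.ofFn_get]; rfl⟩

theorem ms (hS : Strong α h S) (A B : Multiset ℕ) (hA : A.card = h) (hB : B.card = h)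
    (sA : ∀ x ∈ A, x ∈ S) (sB : ∀ x ∈ B, x ∈ S) (hne : A.sup ≠ B.sup) :
    ∀ w ∈ A, (w : ℝ) ^ α ≤ |(A.sum : ℝ) - B.sum| := by
  obtain ⟨x, rfl⟩ := ofms A hA
  obtain ⟨y, rfl⟩ := ofms B hB
  intro w hw
  obtain ⟨i, -, rfl⟩ := Multiset.mem_map.1 hw
  have := (hS x y (fun i => sA _ (Multiset.mem_map_of_mem _ (mem_univ i)))
    (fun i => sB _ (Multiset.mem_map_of_mem _ (mem_univ i))) hne i).1
  rwa [← Nat.cast_sum, ← Nat.cast_sum] at this

theorem aux (hS : Strong α h S) (U V : Multiset ℕ) (hU : U.card ≤ h) (hV : V.card = U.card)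
    (sU : ∀ x ∈ U, x ∈ S) (sV : ∀ x ∈ V, x ∈ S) (m : ℕ) (hm : m ∈ U) (hl : ∀ v ∈ V, v < m) :
    (m : ℝ) ^ α ≤ |(U.sum : ℝ) - V.sum| := by
  obtain ⟨e, he⟩ := Multiset.card_pos_iff_exists_mem.1
    (hV ▸ Multiset.card_pos_iff_exists_mem.2 ⟨m, hm⟩ : 0 < V.card)
  have key := ms hS (U + Multiset.replicate (h - U.card) e) (V + Multiset.replicate (h - U.card) e)
    (by simp; omega) (by simp; omega)
    (fun x hx => (Multiset.mem_add.1 hx).elim (sU x) fun h => Multiset.eq_of_mem_replicate h ▸ sV e he)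
    (fun x hx => (Multiset.mem_add.1 hx).elim (sV x) fun h => Multiset.eq_of_mem_replicate h ▸ sV e he)
    (fun hs => ?_) m (Multiset.mem_add.2 (Or.inl hm))
  · simpa using key
  · have h1 : m ≤ (U + Multiset.replicate (h - U.card) e).sup :=
      Multiset.le_sup (Multiset.mem_add.2 (Or.inl hm))
    have h2 : (V + Multiset.replicate (h - U.card) e).sup ≤ m - 1 :=
      Multiset.sup_le.2 fun x hx => Nat.le_sub_one_of_lt ((Multiset.mem_add.1 hx).elim (hl x)
        fun h => Multiset.eq_of_mem_replicate h ▸ hl e he)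
    have := hl e he
    omega

theorem sep (hS : Strong α h S) (h0 : 0 ≤ α) (U V : Multiset ℕ) (hU : U.card = h)
    (hV : V.card = h) (sU : ∀ x ∈ U, x ∈ S) (sV : ∀ x ∈ V, x ∈ S) (z : ℕ)
    (hz : U.count z ≠ V.count z) : (z : ℝ) ^ α ≤ |(U.sum : ℝ) - V.sum| := by
  have e1 := Multiset.sub_add_inter U V
  have e2 := Multiset.sub_add_inter V U
  rw [Multiset.inter_comm] at e2
  have c1 := congrArg Multiset.card e1
  have c2 := congrArg Multiset.card e2
  rw [Multiset.card_add] at c1 c2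
  have s1 : (U.sum : ℝ) - V.sum = (U - V).sum - (V - U).sum := by
    conv_lhs => rw [← e1, ← congrArg Multiset.sum e2]
    simp
  have hz' : z ∈ (U - V + (V - U)).toFinset := by
    rw [Multiset.mem_toFinset, ← Multiset.one_le_count_iff_mem, Multiset.count_add,
      Multiset.count_sub, Multiset.count_sub]
    omega
  obtain ⟨m, hm, hmax⟩ := exists_max_image _ id ⟨z, hz'⟩
  simp only [Multiset.mem_toFinset, Multiset.mem_add, id] at hm hmax hz'
  have dj : ∀ x, x ∈ U - V → x ∈ V - U → False := fun x a b => by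
    rw [← Multiset.one_le_count_iff_mem, Multiset.count_sub] at a b
    omega
  have a1 : ∀ x ∈ U - V, x ∈ S := fun x hx => sU x (Multiset.mem_of_le (Multiset.sub_le_self _ _) hx)
  have a2 : ∀ x ∈ V - U, x ∈ S := fun x hx => sV x (Multiset.mem_of_le (Multiset.sub_le_self _ _) hx)
  refine (Real.rpow_le_rpow (Nat.cast_nonneg _) (Nat.cast_le.2 (hmax z hz')) h0).trans ?_
  rw [s1]
  rcases hm with hm | hm
  · exact aux hS _ _ (by omega) (by omega) a1 a2 m hm fun v hv =>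
      lt_of_le_of_ne (hmax v (Or.inr hv)) fun e => dj m hm (e ▸ hv)
  · rw [abs_sub_comm]
    exact aux hS _ _ (by omega) (by omega) a2 a1 m hm fun v hv =>
      lt_of_le_of_ne (hmax v (Or.inl hv)) fun e => dj m (e ▸ hv) hm

theorem pack {ι : Type*} (I : Finset ι) (d : ι → ℤ) (D : ι → ℕ) (N : ℕ)
    (h1 : ∀ a ∈ I, ∀ b ∈ I, a ≠ b → (D a : ℤ) ≤ |d a - d b|)
    (h2 : ∀ a ∈ I, |d a| < N ∧ D a ≤ N) : ∑ a ∈ I, D a ≤ 3 * N := by
  classical
  have h3 : (I.biUnion fun a => Ico (d a) (d a + D a)) ⊆ Ico (-(N : ℤ)) (2 * N) := by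
    intro x hx
    obtain ⟨a, ha, hx⟩ := mem_biUnion.1 hx
    have := h2 a ha
    rw [abs_lt] at this
    rw [mem_Ico] at hx ⊢
    omega
  have h4 := card_le_card h3
  rw [card_biUnion] at h4
  · simp only [Int.card_Ico, add_sub_cancel_left, Int.toNat_natCast] at h4
    omega
  · intro a ha b hb hab
    rw [Function.onFun, disjoint_left]
    intro x x1 x2
    have t1 := h1 a ha b hb hab
    have t2 := h1 b hb a ha hab.symm
    rw [mem_Ico] at x1 x2
    rcases le_total (d a) (d b) with h | h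
    · rw [abs_sub_comm, abs_of_nonneg (by omega)] at t1; omega
    · rw [abs_sub_comm, abs_of_nonneg (by omega)] at t2; omega

/-- Disjoint pairs of `k`-subsets whose sums lie in the same window of length `N`. -/
def Gd (T : Finset ℕ) (k N : ℕ) : Finset (Finset ℕ × Finset ℕ) :=
  (powersetCard k T ×ˢ powersetCard k T).filter fun p =>
    Disjoint p.1 p.2 ∧ (∑ x ∈ p.1, x) / N = (∑ x ∈ p.2, x) / N

theorem block (T : Finset ℕ) (k N B : ℕ) (hN : 0 < N) (hT : ∀ x ∈ T, x ≤ B * N) :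
    T.card.choose (k + 1) ^ 2 ≤ ((k + 1) * B + 1) *
      ((Gd T (k + 1) N).card + T.card.choose (k + 1) * ((k + 1) * T.card ^ k)) := by
  set X := powersetCard (k + 1) T with hX
  set w : Finset ℕ → ℕ := fun A => (∑ x ∈ A, x) / N with hw
  have hm : ∀ A ∈ X, w A ∈ range ((k + 1) * B + 1) := fun A hA => by
    obtain ⟨h1, h2⟩ := mem_powersetCard.1 hA
    have := sum_le_card_nsmul A (fun x => x) (B * N) fun x hx => hT x (h1 hx)
    rw [h2, smul_eq_mul, ← mul_assoc] at this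
    exact mem_range.2 (Nat.lt_succ_of_le (Nat.div_le_of_le_mul (by rwa [mul_comm N])))
  have c1 := card_eq_sum_card_fiberwise hm
  have c2 := sq_sum_le_card_mul_sum_sq (s := range ((k + 1) * B + 1))
    (f := fun l => (X.filter (w · = l)).card)
  rw [← c1, card_range, card_powersetCard] at c2
  refine c2.trans (Nat.mul_le_mul_left _ ?_)
  have c3 : ((X ×ˢ X).filter fun p => w p.1 = w p.2).card =
      ∑ l ∈ range ((k + 1) * B + 1), (X.filter (w · = l)).card ^ 2 := by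
    rw [card_eq_sum_card_fiberwise (f := fun p => w p.1) (t := range ((k + 1) * B + 1))
      fun p hp => hm _ (mem_product.1 (mem_filter.1 hp).1).1]
    refine sum_congr rfl fun l _ => ?_
    rw [sq, ← card_product]
    congr 1
    ext p
    simp only [mem_filter, mem_product]
    constructor
    · rintro ⟨⟨⟨a, b⟩, c⟩, d⟩; exact ⟨⟨a, d⟩, b, c ▸ d⟩
    · rintro ⟨⟨a, d⟩, b, c⟩; exact ⟨⟨⟨a, b⟩, d.trans c.symm⟩, d⟩
  rw [← c3]
  have c4 : ((X ×ˢ X).filter fun p => w p.1 = w p.2) ⊆ Gd T (k + 1) N ∪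
      X.biUnion fun A => A.biUnion fun x => (powersetCard k T).image fun C => (A, insert x C) := by
    intro p hp
    obtain ⟨h1, h2⟩ := mem_filter.1 hp
    by_cases hd : Disjoint p.1 p.2
    · exact mem_union_left _ (mem_filter.2 ⟨h1, hd, h2⟩)
    · obtain ⟨x, x1, x2⟩ := not_disjoint_iff.1 hd
      obtain ⟨a, b⟩ := mem_product.1 h1
      obtain ⟨b1, b2⟩ := mem_powersetCard.1 b
      refine mem_union_right _ (mem_biUnion.2 ⟨p.1, a, mem_biUnion.2 ⟨x, x1, mem_image.2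
        ⟨p.2.erase x, mem_powersetCard.2 ⟨(erase_subset _ _).trans b1, ?_⟩, ?_⟩⟩⟩)
      · rw [card_erase_of_mem x2, b2]; rfl
      · rw [insert_erase x2]
  refine (card_le_card c4).trans ((card_union_le _ _).trans (Nat.add_le_add_left ?_ _))
  rw [← card_powersetCard]
  refine card_biUnion_le_card_mul _ _ _ fun A hA => ?_
  rw [← (mem_powersetCard.1 hA).2]
  refine card_biUnion_le_card_mul _ _ _ fun x _ => card_image_le.trans ?_
  rw [card_powersetCard]
  exact Nat.choose_le_pow _ _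

theorem block2 (T : Finset ℕ) (k N B : ℕ) (hN : 0 < N) (hB : 0 < B) (hT : ∀ x ∈ T, x ≤ B * N)
    (ht : 2 ^ (k + 3) * (k + 1).factorial * (k + 1) ^ 2 * B ≤ T.card) :
    (T.card : ℝ) ^ (2 * (k + 1)) ≤
      (4 ^ (k + 2) * (k + 1).factorial ^ 2 * (k + 1) : ℕ) * B * (Gd T (k + 1) N).card := by
  have h1 := block T k N B hN hT
  generalize (Gd T (k + 1) N).card = G at h1
  generalize T.card = t at h1 ht
  have f1 : 1 ≤ (k + 1).factorial := Nat.factorial_pos _
  have f2 : 2 * (k + 1) ≤ t := by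
    refine le_trans ?_ ht
    calc 2 * (k + 1) = 2 ^ 1 * 1 * (k + 1) ^ 1 * 1 := by ring
      _ ≤ _ := by gcongr <;> omega
  have h2 : t ^ (k + 1) ≤ 2 ^ (k + 1) * (k + 1).factorial * t.choose (k + 1) := by
    rw [mul_assoc, ← Nat.descFactorial_eq_factorial_mul_choose]
    refine le_trans ?_ (Nat.mul_le_mul_left _ (Nat.pow_sub_le_descFactorial t (k + 1)))
    rw [← mul_pow]
    exact Nat.pow_le_pow_left (by omega) _
  generalize t.choose (k + 1) = C at h1 h2
  generalize (k + 1).factorial = F at *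
  have t0 : 0 < t := by omega
  have h3 : 2 * (2 * (k + 1) * B) * ((k + 1) * t ^ k) ≤ C := by
    refine Nat.le_of_mul_le_mul_left (le_trans ?_ h2) (show 0 < 2 ^ (k + 1) * F by positivity)
    calc _ = (2 ^ (k + 3) * F * (k + 1) ^ 2 * B) * t ^ k := by ring
      _ ≤ t * t ^ k := Nat.mul_le_mul_right _ ht
      _ = _ := by ring
  have h4 : (k + 1) * B + 1 ≤ 2 * (k + 1) * B := by nlinarith [Nat.mul_pos k.succ_pos hB]
  have h5 : C ^ 2 ≤ 2 * (2 * (k + 1) * B) * G := by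
    have a1 := h1.trans (Nat.mul_le_mul_right _ h4)
    have a2 := Nat.mul_le_mul_left C h3
    nlinarith
  have h6 : t ^ (2 * (k + 1)) ≤ (4 ^ (k + 2) * F ^ 2 * (k + 1)) * B * G := by
    calc t ^ (2 * (k + 1)) = (t ^ (k + 1)) ^ 2 := by ring
      _ ≤ (2 ^ (k + 1) * F * C) ^ 2 := Nat.pow_le_pow_left h2 2
      _ = (2 ^ (k + 1) * F) ^ 2 * C ^ 2 := by ring
      _ ≤ (2 ^ (k + 1) * F) ^ 2 * (2 * (2 * (k + 1) * B) * G) := Nat.mul_le_mul_left _ h5
      _ = _ := by rw [show (4 : ℕ) = 2 ^ 2 by norm_num, ← pow_mul]; ring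
  exact_mod_cast h6

open Classical in
/-- The elements of `S` in `(M ^ j N, M ^ (j + 1) N]`. -/
noncomputable def Tj (S : Set ℕ) (M N j : ℕ) : Finset ℕ :=
  (Ioc (M ^ j * N) (M ^ (j + 1) * N)).filter (· ∈ S)

theorem mem_Tj {M N j x : ℕ} :
    x ∈ Tj S M N j ↔ (M ^ j * N < x ∧ x ≤ M ^ (j + 1) * N) ∧ x ∈ S := by simp [Tj]

theorem cnt_succ (M N j : ℕ) (hM : 1 ≤ M) :
    cnt S (M ^ (j + 1) * N) = cnt S (M ^ j * N) + (Tj S M N j).card := by
  classical
  have h : M ^ j * N ≤ M ^ (j + 1) * N :=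
    Nat.mul_le_mul_right _ (Nat.pow_le_pow_right hM j.le_succ)
  rw [cnt, cnt, ← card_union_of_disjoint]
  · congr 1
    ext x
    simp only [mem_union, mem_filter, mem_Icc, mem_Tj]
    constructor
    · rintro ⟨a, b⟩
      by_cases c : x ≤ M ^ j * N
      · exact Or.inl ⟨⟨a.1, c⟩, b⟩
      · exact Or.inr ⟨⟨not_le.1 c, a.2⟩, b⟩
    · rintro (⟨a, b⟩ | ⟨a, b⟩) <;> exact ⟨by omega, b⟩
  · rw [disjoint_left]
    intro x a b
    have := (mem_Icc.1 (mem_filter.1 a).1).2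
    have := (mem_Tj.1 b).1.1
    omega

theorem glob {k : ℕ} (hS : Strong α (2 * (k + 1)) S) (h0 : 0 ≤ α) (M N J : ℕ) (hM : 1 ≤ M)
    (hN : 0 < N) (hD : ∀ j < J, ⌈((M ^ j * N : ℕ) : ℝ) ^ α⌉₊ ≤ N) :
    ∑ j ∈ range J, (Gd (Tj S M N j) (k + 1) N).card * ⌈((M ^ j * N : ℕ) : ℝ) ^ α⌉₊ ≤ 3 * N := by
  have key := pack ((range J).sigma fun j => Gd (Tj S M N j) (k + 1) N)
    (fun a => ((∑ x ∈ a.2.1, x : ℕ) : ℤ) - (∑ x ∈ a.2.2, x : ℕ))
    (fun a => ⌈((M ^ a.1 * N : ℕ) : ℝ) ^ α⌉₊) N ?_ ?_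
  · rw [sum_sigma] at key
    simpa using key
  · rintro ⟨j, X, Y⟩ ha ⟨j', X', Y'⟩ hb hab
    simp only [mem_sigma, Gd, mem_filter, mem_product, mem_powersetCard] at ha hb
    obtain ⟨-, ⟨⟨a1, a2⟩, a3, a4⟩, a5, -⟩ := ha
    obtain ⟨-, ⟨⟨b1, b2⟩, b3, b4⟩, b5, -⟩ := hb
    obtain ⟨z, hz, hc⟩ : ∃ z ∈ Tj S M N j,
        (X.val + Y'.val).count z ≠ (X'.val + Y.val).count z := by
      by_cases hX : X ⊆ X'
      · obtain rfl := eq_of_subset_of_card_le hX (by omega)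
        obtain ⟨x, hx⟩ := card_pos.1 (show 0 < X.card by omega)
        have x1 := (mem_Tj.1 (a1 hx)).1
        have x2 := (mem_Tj.1 (b1 hx)).1
        obtain rfl : j = j' := by
          rcases lt_trichotomy j j' with h | h | h
          · have := Nat.mul_le_mul_right N (Nat.pow_le_pow_right hM (Nat.succ_le_of_lt h))
            rw [Nat.succ_eq_add_one] at this; omega
          · exact h
          · have := Nat.mul_le_mul_right N (Nat.pow_le_pow_right hM (Nat.succ_le_of_lt h))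
            rw [Nat.succ_eq_add_one] at this; omega
        obtain ⟨z, z1, z2⟩ := not_subset.1 fun hY : Y ⊆ Y' =>
          hab (by rw [eq_of_subset_of_card_le hY (by omega)])
        refine ⟨z, a3 z1, ?_⟩
        rw [Multiset.count_add, Multiset.count_add, Multiset.count_eq_zero_of_notMem z2,
          Multiset.count_eq_one_of_mem Y.nodup z1]
        omega
      · obtain ⟨z, z1, z2⟩ := not_subset.1 hX
        refine ⟨z, a1 z1, ?_⟩
        rw [Multiset.count_add, Multiset.count_add, Multiset.count_eq_zero_of_notMem z2,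
          Multiset.count_eq_one_of_mem X.nodup z1,
          Multiset.count_eq_zero_of_notMem (disjoint_left.1 a5 z1)]
        omega
    have := sep hS h0 (X.val + Y'.val) (X'.val + Y.val) (by simp; omega) (by simp; omega)
      (fun x hx => (Multiset.mem_add.1 hx).elim (fun h => (mem_Tj.1 (a1 h)).2)
        fun h => (mem_Tj.1 (b3 h)).2)
      (fun x hx => (Multiset.mem_add.1 hx).elim (fun h => (mem_Tj.1 (b1 h)).2)
        fun h => (mem_Tj.1 (a3 h)).2) z hc
    rw [← Int.natCast_natAbs, Nat.cast_le, Nat.ceil_le, Nat.cast_natAbs]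
    refine (Real.rpow_le_rpow (Nat.cast_nonneg _)
      (Nat.cast_le.2 (mem_Tj.1 hz).1.1.le) h0).trans (this.trans (le_of_eq ?_))
    have e : ∀ A : Finset ℕ, A.val.sum = ∑ x ∈ A, x := fun A => by
      rw [Finset.sum, Multiset.map_id']
    simp only [Multiset.sum_add, e]
    push_cast
    congr 1
    ring
  · rintro ⟨j, X, Y⟩ ha
    simp only [mem_sigma, Gd, mem_filter, mem_range] at ha
    refine ⟨?_, hD j ha.1⟩
    have h1 := ha.2.2.2
    generalize ∑ x ∈ X, x = a at *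
    generalize ∑ x ∈ Y, x = b at *
    have h2 := Nat.div_add_mod a N
    have h3 := Nat.div_add_mod b N
    have h4 := Nat.mod_lt a hN
    have h5 := Nat.mod_lt b hN
    rw [h1] at h2
    show |(a : ℤ) - b| < N
    rw [abs_lt]
    omega

theorem main {k : ℕ} (hS : Strong α (2 * (k + 1)) S) (h0 : 0 ≤ α) (h1 : α < 1) (c : ℝ) (hc : 0 < c)
    (H : ∀ᶠ n : ℕ in atTop, c ≤ cnt S n / (n : ℝ) ^ ((1 - α) / (2 * (k + 1) : ℕ))) : False := by
  set β := (1 - α) / (2 * (k + 1) : ℕ) with hβ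
  have b0 : 0 < β := div_pos (by linarith) (by positivity)
  have tb : ∀ {γ : ℝ}, 0 < γ → ∀ C : ℝ, ∀ᶠ n : ℕ in atTop, C ≤ (n : ℝ) ^ γ := fun hγ C =>
    ((tendsto_rpow_atTop hγ).comp tendsto_natCast_atTop_atTop).eventually_ge_atTop C
  obtain ⟨M, hM4, hM⟩ := ((tb b0 4).and (eventually_ge_atTop 1)).exists
  set K : ℕ := 4 ^ (k + 2) * (k + 1).factorial ^ 2 * (k + 1) with hK
  set ε := c / 8 with hε
  have ε0 : 0 < ε := by positivity
  obtain ⟨J, hJ⟩ := exists_nat_gt (3 * K * M / (ε ^ (2 * k + 1) * (2 * ε)))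
  rw [div_lt_iff₀ (by positivity)] at hJ
  set t0 : ℕ := 2 ^ (k + 3) * (k + 1).factorial * (k + 1) ^ 2 * M ^ J
  obtain ⟨n1, hn1⟩ := eventually_atTop.1 (H.and ((tb b0 (t0 / ε)).and
    ((tb (sub_pos.2 h1) (2 * M ^ J)).and (eventually_gt_atTop 0))))
  set g : ℕ → ℝ := fun n => cnt S n / (n : ℝ) ^ β with hg
  have bd : BddBelow (g '' Set.Ici n1) := ⟨c, by rintro _ ⟨n, hn, rfl⟩; exact (hn1 n hn).1⟩
  have ne : (g '' Set.Ici n1).Nonempty := ⟨_, n1, Set.self_mem_Ici, rfl⟩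
  have c1 : c ≤ sInf (g '' Set.Ici n1) := le_csInf ne (by rintro _ ⟨n, hn, rfl⟩; exact (hn1 n hn).1)
  obtain ⟨_, ⟨N, hN, rfl⟩, hN2⟩ := exists_lt_of_csInf_lt ne
    (show sInf (g '' Set.Ici n1) < 2 * sInf (g '' Set.Ici n1) by linarith)
  have c2 : ∀ n ≥ n1, sInf (g '' Set.Ici n1) ≤ g n := fun n hn => csInf_le bd ⟨n, hn, rfl⟩
  generalize sInf (g '' Set.Ici n1) = c' at c1 c2 hN2
  obtain ⟨-, N1, N2, N0⟩ := hn1 N hN
  have N0' : (1 : ℝ) ≤ N := by exact_mod_cast N0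
  have M1 : (1 : ℝ) ≤ M := by exact_mod_cast hM
  set R : ℕ → ℝ := fun j => ((M ^ j * N : ℕ) : ℝ) ^ β with hR
  have p0 : ∀ j, (0 : ℝ) < (M ^ j * N : ℕ) := fun j => by positivity
  have R0 : ∀ j, 0 < R j := fun j => Real.rpow_pos_of_pos (p0 j) _
  have R1 : ∀ j, 4 * R j ≤ R (j + 1) := fun j => by
    simp only [hR]
    rw [show ((M ^ (j + 1) * N : ℕ) : ℝ) = M * (M ^ j * N : ℕ) by push_cast; ring,
      Real.mul_rpow (by positivity) (p0 j).le]
    exact mul_le_mul_of_nonneg_right hM4 (R0 j).le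
  have R2 : ∀ j, R 0 ≤ R j := fun j => by
    induction j with
    | zero => exact le_rfl
    | succ j ih => linarith [R1 j, R0 j]
  have R3 : R 0 = (N : ℝ) ^ β := by simp [hR]
  set s : ℕ → ℝ := fun j => ((cnt S (M ^ j * N) : ℝ) - cnt S N) / R j with hs
  set τ : ℕ → ℝ := fun j => (Tj S M N j).card / R (j + 1) with hτ
  have s1 : ∀ j, c / 2 ≤ s (j + 1) := fun j => by
    have a1 := c2 (M ^ (j + 1) * N) (le_trans hN (Nat.le_mul_of_pos_left _ (by positivity)))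
    rw [hg, le_div_iff₀ (R0 (j + 1))] at a1
    rw [hg, div_lt_iff₀ (R3 ▸ R0 0), ← R3] at hN2
    rw [hs, le_div_iff₀ (R0 _)]
    have a2 := R1 j
    have a3 := R2 j
    have a4 := R0 (j + 1)
    change c' * R (j + 1) ≤ _ at a1
    nlinarith
  have s0 : ∀ j, 0 ≤ s j := fun j => by
    cases j with
    | zero => simp [hs]
    | succ j => linarith [s1 j]
  have s2 : ∀ j, s (j + 1) ≤ τ j + s j / 4 := fun j => by
    have a1 : s (j + 1) = τ j + s j * R j / R (j + 1) := by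
      simp only [hs, hτ]
      rw [div_mul_cancel₀ _ (R0 j).ne', cnt_succ M N j hM, ← add_div]
      push_cast; ring
    rw [a1, add_le_add_iff_left, div_le_iff₀ (R0 _)]
    nlinarith [s0 j, R1 j]
  have s3 : ∀ n : ℕ, 3 * ε * n + s n / 4 ≤ ∑ j ∈ range n, τ j := fun n => by
    induction n with
    | zero => simp [hs]
    | succ n ih => rw [sum_range_succ]; push_cast; linarith [s1 n, s2 n]
  have hD : ∀ j < J, ⌈((M ^ j * N : ℕ) : ℝ) ^ α⌉₊ ≤ N := fun j hj => by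
    rw [Nat.ceil_le]
    push_cast
    rw [Real.mul_rpow (by positivity) (by positivity)]
    have a1 : ((M : ℝ) ^ j) ^ α ≤ M ^ J := (Real.rpow_le_self_of_one_le (one_le_pow₀ M1) h1.le).trans
      (pow_le_pow_right₀ M1 hj.le)
    have a2 : (N : ℝ) ^ (1 - α) * N ^ α = N := by
      rw [← Real.rpow_add (by positivity)]; simp
    have a3 : 0 ≤ (N : ℝ) ^ α := by positivity
    have a4 : (0 : ℝ) ≤ M ^ J := by positivity
    nlinarith
  have key : ∀ j ∈ range J, ε ^ (2 * k + 1) * N * (τ j - ε) ≤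
      K * M * ((Gd (Tj S M N j) (k + 1) N).card * ⌈((M ^ j * N : ℕ) : ℝ) ^ α⌉₊ : ℕ) := by
    intro j hj
    rcases le_total (τ j) ε with h | h
    · exact le_trans (mul_nonpos_of_nonneg_of_nonpos (by positivity) (by linarith)) (by positivity)
    have a0 : ((Tj S M N j).card : ℝ) = τ j * R (j + 1) := (div_mul_cancel₀ _ (R0 _).ne').symm
    have a1 : (t0 : ℝ) ≤ (Tj S M N j).card := by
      rw [div_le_iff₀ ε0, ← R3] at N1
      rw [a0]
      nlinarith [R2 (j + 1), R0 0]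
    have a2 := block2 (Tj S M N j) k N (M ^ (j + 1)) N0 (by positivity)
      (fun x hx => (mem_Tj.1 hx).1.2) (le_trans (Nat.mul_le_mul_left _
        (Nat.pow_le_pow_right hM (mem_range.1 hj))) (by exact_mod_cast a1))
    have a3 : R (j + 1) ^ (2 * (k + 1)) = ((M ^ (j + 1) * N : ℕ) : ℝ) ^ (1 - α) := by
      rw [hR, ← Real.rpow_natCast, ← Real.rpow_mul (p0 _).le, hβ, div_mul_cancel₀ _ (by positivity)]
    have a4 : ((M ^ (j + 1) * N : ℕ) : ℝ) ^ α ≤ M * ⌈((M ^ j * N : ℕ) : ℝ) ^ α⌉₊ := by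
      rw [show ((M ^ (j + 1) * N : ℕ) : ℝ) = M * (M ^ j * N : ℕ) by push_cast; ring,
        Real.mul_rpow (by positivity) (p0 j).le]
      exact mul_le_mul (Real.rpow_le_self_of_one_le M1 h1.le) (Nat.le_ceil _) (by positivity)
        (by positivity)
    have a5 : ((M ^ (j + 1) * N : ℕ) : ℝ) ^ (1 - α) * ((M ^ (j + 1) * N : ℕ) : ℝ) ^ α =
        M ^ (j + 1) * N := by
      rw [← Real.rpow_add (p0 _), sub_add_cancel, Real.rpow_one, Nat.cast_mul, Nat.cast_pow]
    rw [a0, mul_pow, a3, ← hK] at a2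
    have a6 : ε ^ (2 * k + 1) * (τ j - ε) ≤ τ j ^ (2 * (k + 1)) := by
      rw [show 2 * (k + 1) = 2 * k + 1 + 1 by ring, pow_succ (τ j)]
      exact mul_le_mul (pow_le_pow_left₀ ε0.le h _) (by linarith) (by linarith)
        (pow_nonneg (ε0.le.trans h) _)
    have a7 := mul_le_mul a2 a4 (Real.rpow_nonneg (p0 _).le _) (mul_nonneg
      (mul_nonneg (Nat.cast_nonneg _) (Nat.cast_nonneg _)) (Nat.cast_nonneg _))
    rw [mul_assoc, a5] at a7
    push_cast at a7 ⊢
    refine le_of_mul_le_mul_left ?_ (show (0 : ℝ) < M ^ (j + 1) by positivity)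
    have a8 := mul_le_mul_of_nonneg_right a6 (show (0 : ℝ) ≤ M ^ (j + 1) * N by positivity)
    linarith
  have f1 := sum_le_sum key
  have f2 : ((∑ j ∈ range J, (Gd (Tj S M N j) (k + 1) N).card *
      ⌈((M ^ j * N : ℕ) : ℝ) ^ α⌉₊ : ℕ) : ℝ) ≤ 3 * N := by exact_mod_cast glob hS h0 M N J hM N0 hD
  rw [← mul_sum, ← mul_sum, ← Nat.cast_sum, sum_sub_distrib, sum_const, card_range,
    nsmul_eq_mul] at f1
  have f3 := mul_le_mul_of_nonneg_left f2 (show (0 : ℝ) ≤ K * M by positivity)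
  have f4 := mul_le_mul_of_nonneg_left (show 2 * ε * J ≤ ∑ j ∈ range J, τ j - J * ε by
    linarith [s3 J, s0 J]) (show 0 ≤ ε ^ (2 * k + 1) * N by positivity)
  have f5 := mul_lt_mul_of_pos_right hJ (show (0 : ℝ) < N by positivity)
  linarith

theorem result (α : ℝ) (h0 : 0 ≤ α) (h1 : α < 1) (h : ℕ) (hh : 2 ≤ h) (he : Even h) (S : Set ℕ)
    (hS : Strong α h S) :
    liminf (fun n : ℕ => (cnt S n : ℝ) / (n : ℝ) ^ ((1 - α) / h)) atTop = 0 := by
  obtain ⟨k, rfl⟩ : ∃ k, h = 2 * (k + 1) := by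
    obtain ⟨r, rfl⟩ := he
    exact ⟨r - 1, by omega⟩
  rw [liminf_eq]
  refine IsGreatest.csSup_eq ⟨Eventually.of_forall fun n => by positivity, fun c hc => ?_⟩
  by_contra h
  exact main hS h0 h1 c (not_le.1 h) hc

end Pool.Agent.Results.MP_1d2509_nt.EvenH
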